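import Pool.Agent.helper56.P3.Defs2

/-!
# P3, module C1 (Hits): orbits of the critical points of `G_t`
-/

namespace Pool.Agent.helper56.P3

open Finset Pool.Agent.helper56.Per

theorem hits_re {t : ℂ} {ℓ : ℕ} (h : Hits (1 : ℂ) t ℓ) : t.re < 0 := by
  obtain ⟨x, hx0, hx, hxl⟩ := h
  by_contra ht
  rw [not_lt] at ht
  have key : ∀ j ≤ ℓ, 0 < (x j).re := by
    intro j
    induction j with
    | zero =>
      intro _
      rw [hx0]
      norm_num
    | succ j ih =>
      intro hj
      have h1 := ih (by omega)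
      obtain ⟨h2, h3⟩ := hx j (by omega)
      rw [h3, Complex.add_re, Complex.add_re, Complex.inv_re]
      have h4 : 0 < Complex.normSq (x j) := Complex.normSq_pos.2 h2
      have h5 : 0 < (x j).re / Complex.normSq (x j) := div_pos h1 h4
      linarith
  have := key ℓ le_rfl
  rw [hxl] at this
  simp at this

theorem Hits.map {F F' : Type*} [Field F] [Field F'] (σ : F →+* F') {w t : F} {ℓ : ℕ}
    (h : Hits w t ℓ) : Hits (σ w) (σ t) ℓ := by
  obtain ⟨x, hx0, hx, hxl⟩ := h
  refine ⟨fun j => σ (x j), by simp only [hx0], fun j hj => ?_, by simp only [hxl, map_zero]⟩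
  obtain ⟨h1, h2⟩ := hx j hj
  refine ⟨(map_ne_zero σ).2 h1, ?_⟩
  show σ (x (j + 1)) = σ (x j) + (σ (x j))⁻¹ + σ t
  rw [h2, map_add, map_add, map_inv₀]

theorem Hits.neg {F : Type*} [Field F] {w t : F} {ℓ : ℕ} (h : Hits w t ℓ) :
    Hits (-w) (-t) ℓ := by
  obtain ⟨x, hx0, hx, hxl⟩ := h
  refine ⟨fun j => -x j, by simp only [hx0], fun j hj => ?_, by simp only [hxl, neg_zero]⟩
  obtain ⟨h1, h2⟩ := hx j hj
  refine ⟨neg_ne_zero.2 h1, ?_⟩
  show -x (j + 1) = -x j + (-x j)⁻¹ + -t
  rw [h2, inv_neg]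
  ring

theorem hits_re' {t : ℂ} {ℓ : ℕ} (h : Hits (-1 : ℂ) t ℓ) : 0 < t.re := by
  have h1 := h.neg
  rw [neg_neg] at h1
  have h2 := hits_re h1
  rw [Complex.neg_re] at h2
  linarith

/-- in `k` algebraic over `ℚ` : the sign is determined, `t ≠ 0` -/
theorem hits_sign {k : Type*} [Field k] [CharZero k] [Algebra.IsAlgebraic ℚ k] {ε ε' t : k}
    {ℓ ℓ' : ℕ} (hε : ε ^ 2 = 1) (hε' : ε' ^ 2 = 1) (h : Hits ε t ℓ) (h' : Hits ε' t ℓ') :
    ε = ε' ∧ t ≠ 0 := by
  let σ : k →+* ℂ := (IsAlgClosed.lift (R := ℚ) (S := k) (M := ℂ)).toRingHom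
  have h1 := h.map σ
  have h1' := h'.map σ
  have hn : (σ t).re ≠ 0 → t ≠ 0 := by
    rintro hz rfl
    rw [map_zero] at hz
    exact hz Complex.zero_re
  have hs : ∀ δ : k, δ ^ 2 = 1 → δ = 1 ∨ δ = -1 := by
    intro δ hδ
    have : (δ - 1) * (δ + 1) = 0 := by linear_combination hδ
    rcases mul_eq_zero.1 this with h2 | h2
    · exact Or.inl (by linear_combination h2)
    · exact Or.inr (by linear_combination h2)
  rcases hs ε hε with rfl | rfl <;> rcases hs ε' hε' with rfl | rfl <;>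
    simp only [map_one, map_neg] at h1 h1'
  · exact ⟨rfl, hn (hits_re h1).ne⟩
  · exact absurd (hits_re h1) (not_lt.2 (hits_re' h1').le)
  · exact absurd (hits_re h1') (not_lt.2 (hits_re' h1).le)
  · exact ⟨rfl, hn (hits_re' h1).ne'⟩

/-- two-adic size of `t` -/
theorem hits_dyadic {k : Type*} [Field k] (O : ValuationSubring k) (h2 : O.valuation 2 < 1)
    {ε t : k} {ℓ : ℕ} (hε : ε ^ 2 = 1) (h : Hits ε t ℓ) (hℓ : 2 ≤ ℓ) : 1 < O.valuation t := by
  obtain ⟨x, hx0, hx, hxl⟩ := h
  set v := O.valuation with hv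
  by_contra hc
  rw [not_lt] at hc
  have hε0 : ε ≠ 0 := by
    rintro rfl
    norm_num at hε
  have hvε : v ε = 1 := by
    have h3 : v ε ^ 2 = 1 := by rw [← map_pow, hε, map_one]
    exact (pow_eq_one_iff_of_nonneg (zero_le : (0 : _) ≤ v ε) two_ne_zero).1 h3
  have hεi : ε⁻¹ = ε := by
    refine inv_eq_of_mul_eq_one_right ?_
    rw [← sq]
    exact hε
  have h2ε : v (2 * ε) < 1 := by rw [map_mul, hvε, mul_one]; exact h2
  have hx1 : x 1 = 2 * ε + t := by
    have := (hx 0 (by omega)).2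
    rw [zero_add, hx0, hεi] at this
    rw [this]; ring
  rcases hc.lt_or_eq with hc | hc
  · -- `v t < 1`
    have h3 : v (x 1) < 1 := by
      rw [hx1]
      exact Valuation.map_add_lt _ h2ε hc
    obtain ⟨h4, h5⟩ := hx 1 (by omega)
    have h4' : 0 < v (x 1) := zero_lt_iff.2 ((Valuation.ne_zero_iff _).2 h4)
    have h6 : 1 < v (x 1)⁻¹ := by
      rw [map_inv₀]
      exact (one_lt_inv₀ h4').2 h3
    have key : ∀ j, 2 ≤ j → j ≤ ℓ → 1 < v (x j) := by
      intro j hj
      induction j, hj using Nat.le_induction with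
      | base =>
        intro _
        have h7 : x 2 = (x 1)⁻¹ + (x 1 + t) := by rw [h5]; ring
        have h8 : v (x 1 + t) < v (x 1)⁻¹ := (Valuation.map_add_lt _ h3 hc).trans h6
        rw [h7, Valuation.map_add_eq_of_lt_left _ h8]
        exact h6
      | succ j hj ih =>
        intro hjl
        have h7 := ih (by omega)
        have h8 : x (j + 1) = x j + ((x j)⁻¹ + t) := by rw [(hx j (by omega)).2]; ring
        have h9 : v (x j)⁻¹ < 1 := by
          rw [map_inv₀]
          exact inv_lt_one_of_one_lt₀ h7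
        have h10 : v ((x j)⁻¹ + t) < v (x j) := (Valuation.map_add_lt _ h9 hc).trans h7
        rw [h8, Valuation.map_add_eq_of_lt_left _ h10]
        exact h7
    have := key ℓ hℓ le_rfl
    rw [hxl, map_zero] at this
    exact absurd this (not_lt.2 zero_le_one)
  · -- `v t = 1`
    have ht0 : t ≠ 0 := by
      rintro rfl
      rw [map_zero] at hc
      exact zero_ne_one hc
    have hti : v t⁻¹ = 1 := by rw [map_inv₀, hc, inv_one]
    have h2t : v (2 * t) < 1 := by rw [map_mul, hc, mul_one]; exact h2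
    have aux : ∀ y u : k, u ≠ 0 → v u = 1 → v (y - u) < 1 → v y = 1 ∧ v (y⁻¹ - u⁻¹) < 1 := by
      intro y u hu0 hu hy
      have e1 : v y = 1 := by
        have : y = u + (y - u) := by ring
        rw [this, Valuation.map_add_eq_of_lt_left _ (by rw [hu]; exact hy), hu]
      have hy0 : y ≠ 0 := by
        rintro rfl
        rw [map_zero] at e1
        exact zero_ne_one e1
      refine ⟨e1, ?_⟩
      have : y⁻¹ - u⁻¹ = -(y - u) * (y⁻¹ * u⁻¹) := by field_simp; ring
      rw [this, map_mul, Valuation.map_neg, map_mul, map_inv₀, map_inv₀, e1, hu, inv_one, mul_one,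
        mul_one]
      exact hy
    have h3 : v (x 1 - t) < 1 := by
      rw [hx1, add_sub_cancel_right]
      exact h2ε
    have h4 := aux (x 1) t ht0 hc h3
    have key : ∀ j, 2 ≤ j → j ≤ ℓ → v (x j - t⁻¹) < 1 := by
      intro j hj
      induction j, hj using Nat.le_induction with
      | base =>
        intro _
        have h7 : x 2 - t⁻¹ = (x 1 - t) + (((x 1)⁻¹ - t⁻¹) + 2 * t) := by
          rw [(hx 1 (by omega)).2]; ring
        rw [h7]
        exact Valuation.map_add_lt _ h3 (Valuation.map_add_lt _ h4.2 h2t)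
      | succ j hj ih =>
        intro hjl
        have h7 := ih (by omega)
        have h8 := aux (x j) t⁻¹ (inv_ne_zero ht0) hti h7
        rw [inv_inv] at h8
        have h9 : x (j + 1) - t⁻¹ = (x j - t⁻¹) + (((x j)⁻¹ - t) + 2 * t) := by
          rw [(hx j (by omega)).2]; ring
        rw [h9]
        exact Valuation.map_add_lt _ h7 (Valuation.map_add_lt _ h8.2 h2t)
    have h5 := key ℓ hℓ le_rfl
    rw [hxl, zero_sub, Valuation.map_neg, hti] at h5
    exact lt_irrefl _ h5

end Pool.Agent.helper56.P3
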